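import Pool.Agent.Lib.H78R.R8
import Pool.Agent.Lib.H89Y.A5
import Pool.Agent.Lib.H89Y.A6

set_option autoImplicit false

/-!
H49S, part A of `AC_P` (Lib/H53R/IDE.lean): monomials of bounded degrees in every block.  S1: the degrees, the
calculus of `HasMonB`, the derivation `N`, reduction modulo two elements (port of Lib/H89Y/A1.lean).
-/

open MvPolynomial

namespace Pool.Agent.H49S

open Pool.Agent.H89T Pool.Agent.H78G Pool.Agent.H53Y Pool.Agent.H89Y Pool.Agent.H53R Pool.Agent.H78R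

variable {β : Type} [DecidableEq β] {m : β → ℕ} {n r : ℕ}

theorem xdb_add (e : Co m ≃ Fin n) (s : β) (μ μ' : JV n r →₀ ℕ) :
    xdb e s (μ + μ') = xdb e s μ + xdb e s μ' := by
  unfold xdb
  rw [← Finset.sum_add_distrib]
  refine Finset.sum_congr rfl fun b _ => ?_
  split_ifs <;> simp

theorem xdb_le (e : Co m ≃ Fin n) (s : β) (μ : JV n r →₀ ℕ) : xdb e s μ ≤ xd μ := by
  unfold xdb xd
  exact Finset.sum_le_sum fun b _ => by split_ifs <;> simp

theorem xdb_eq_zero (e : Co m ≃ Fin n) (s : β) (μ : JV n r →₀ ℕ)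
    (h : ∀ b, (e.symm b).1 = s → μ (b, 0) = 0) : xdb e s μ = 0 := by
  unfold xdb
  refine Finset.sum_eq_zero fun b _ => ?_
  split_ifs with hb
  · exact h b hb
  · rfl

theorem xd_eq_sum [Fintype β] (e : Co m ≃ Fin n) (μ : JV n r →₀ ℕ) : xd μ = ∑ s, xdb e s μ := by
  unfold xdb xd
  rw [Finset.sum_comm]
  refine Finset.sum_congr rfl fun b _ => ?_
  rw [Finset.sum_ite_eq]
  simp

theorem MonB_sub [Fintype β] (e : Co m ≃ Fin n) (d : β → ℕ) (M : ℕ) :
    MonB e r d M ⊆ Mon n r (∑ s, d s) M := by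
  intro μ hμ
  refine ⟨?_, hμ.2⟩
  rw [xd_eq_sum e]
  exact Finset.sum_le_sum fun s _ => hμ.1 s

theorem MonB_finite [Fintype β] (e : Co m ≃ Fin n) (r : ℕ) (d : β → ℕ) (M : ℕ) :
    (MonB e r d M).Finite :=
  (Mon_finite n r _ M).subset (MonB_sub e d M)

section Calculus

variable {R : Type*} [CommRing R] {e : Co m ≃ Fin n}

theorem hb_mono {d d' : β → ℕ} {M M' : ℕ} {P : MvPolynomial (JV n r) R} (h : HasMonB e d M P)
    (hd : ∀ s, d s ≤ d' s) (hM : M ≤ M') : HasMonB e d' M' P :=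
  fun μ hμ => ⟨fun s => ((h μ hμ).1 s).trans (hd s), (h μ hμ).2.trans hM⟩

theorem hb_add {d : β → ℕ} {M : ℕ} {P Q : MvPolynomial (JV n r) R} (hP : HasMonB e d M P)
    (hQ : HasMonB e d M Q) : HasMonB e d M (P + Q) := by
  classical
  intro μ hμ
  rcases Finset.mem_union.mp (support_add hμ) with h | h
  · exact hP μ h
  · exact hQ μ h

theorem hb_mul {d d' : β → ℕ} {M M' : ℕ} {P Q : MvPolynomial (JV n r) R} (hP : HasMonB e d M P)
    (hQ : HasMonB e d' M' Q) : HasMonB e (fun s => d s + d' s) (M + M') (P * Q) := by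
  classical
  intro μ hμ
  obtain ⟨a, ha, b, hb, rfl⟩ := Finset.mem_add.mp (support_mul _ _ hμ)
  refine ⟨fun s => ?_, ?_⟩
  · rw [xdb_add]
    exact add_le_add ((hP a ha).1 s) ((hQ b hb).1 s)
  · rw [jd_add]
    exact add_le_add (hP a ha).2 (hQ b hb).2

theorem hb_zero {d : β → ℕ} {M : ℕ} : HasMonB e d M (0 : MvPolynomial (JV n r) R) := by
  intro μ hμ
  simp at hμ

theorem hb_sum {ι : Type*} {s : Finset ι} {d : β → ℕ} {M : ℕ} {P : ι → MvPolynomial (JV n r) R}
    (hP : ∀ i ∈ s, HasMonB e d M (P i)) : HasMonB e d M (∑ i ∈ s, P i) := by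
  classical
  induction s using Finset.induction_on with
  | empty =>
    rw [Finset.sum_empty]
    exact hb_zero
  | insert a s ha ih =>
    rw [Finset.sum_insert ha]
    exact hb_add (hP a (Finset.mem_insert_self _ _))
      (ih fun i hi => hP i (Finset.mem_insert_of_mem hi))

theorem hb_monomial {d : β → ℕ} {M : ℕ} {μ : JV n r →₀ ℕ} (h1 : ∀ s, xdb e s μ ≤ d s)
    (h2 : jd μ ≤ M) (c : R) : HasMonB e d M (monomial μ c) := by
  intro m' hm'
  have := Finset.mem_singleton.mp (support_monomial_subset hm')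
  subst this
  exact ⟨h1, h2⟩

theorem hb_C (c : R) : HasMonB (r := r) e (fun _ => 0) 0 (C c) :=
  hb_monomial (fun s => by simp [xdb]) (by simp [jd]) c

theorem hb_smul {d : β → ℕ} {M : ℕ} (c : R) {P : MvPolynomial (JV n r) R} (hP : HasMonB e d M P) :
    HasMonB e d M (c • P) := by
  intro μ hμ
  exact hP μ (support_smul hμ)

theorem hb_X1 (p : JV n r) (hp : p.2 ≠ 0) : HasMonB (R := R) e (fun _ => 0) 1 (X p) := by
  refine hb_monomial (fun s => ?_) ?_ 1
  · refine le_of_eq (xdb_eq_zero e s _ fun b _ => ?_)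
    rw [Finsupp.single_eq_of_ne]
    rintro rfl
    exact hp rfl
  · refine le_of_eq ?_
    rw [jd, Finset.sum_eq_single p]
    · simp [hp]
    · intro q _ hq
      split_ifs
      · rfl
      · rw [Finsupp.single_eq_of_ne hq]
    · intro h
      exact absurd (Finset.mem_univ _) h

theorem hb_NN {d : β → ℕ} {M : ℕ} {P : MvPolynomial (JV n r) R} (hP : HasMonB e d M P) :
    HasMonB e d (M + 1) (NN n r R P) := by
  classical
  rw [P.as_sum, map_sum]
  refine hb_sum fun μ hμ => ?_
  obtain ⟨h1, h2⟩ := hP μ hμ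
  rw [Pool.Agent.H89T.NN, mkDerivation_monomial]
  refine hb_smul _ ?_
  rw [Finsupp.sum]
  refine hb_sum fun p hp => ?_
  have hp0 : μ p ≠ 0 := Finsupp.mem_support_iff.mp hp
  have hle : Finsupp.single p 1 ≤ μ := by
    rw [Finsupp.single_le_iff]
    omega
  have hsum : μ - Finsupp.single p 1 + Finsupp.single p 1 = μ := tsub_add_cancel_of_le hle
  rw [smul_eq_mul]
  have hx : ∀ s, xdb e s (μ - Finsupp.single p 1) + xdb e s (Finsupp.single p 1) = xdb e s μ := by
    intro s
    rw [← xdb_add, hsum]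
  have hj : jd (μ - Finsupp.single p 1) + jd (Finsupp.single p 1) = jd μ := by
    rw [← jd_add, hsum]
  split_ifs with h
  · have hX : HasMonB (R := R) e (fun _ => 0) 1 (X (p.1, (⟨(p.2 : ℕ) + 1, by omega⟩ : Fin (r + 1)))) :=
      hb_X1 _ (by
        intro h'
        have := congrArg Fin.val h'
        simp at this)
    have h3 := hb_mul (hb_monomial (R := R) (d := fun s => xdb e s (μ - Finsupp.single p 1))
      (fun s => le_refl (xdb e s (μ - Finsupp.single p 1)))
      (le_refl (jd (μ - Finsupp.single p 1))) ((μ p : ℕ) : R))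
        (hb_mul (hb_C (r := r) (e := e) (((p.2 : ℕ) + 1 : ℕ) : R)) hX)
    have hC : ((p.2 : ℕ) + 1) • (X (p.1, (⟨(p.2 : ℕ) + 1, by omega⟩ : Fin (r + 1))) :
        MvPolynomial (JV n r) R) = MvPolynomial.C (((p.2 : ℕ) + 1 : ℕ) : R) *
          X (p.1, (⟨(p.2 : ℕ) + 1, by omega⟩ : Fin (r + 1))) := by
      rw [map_natCast, nsmul_eq_mul]
    rw [hC]
    refine hb_mono h3 (fun s => ?_) ?_
    · have := hx s
      have := h1 s
      omega
    · omega
  · rw [mul_zero]
    exact hb_zero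

theorem hb_NN_iterate {d : β → ℕ} {M : ℕ} {P : MvPolynomial (JV n r) R} (hP : HasMonB e d M P)
    (l : ℕ) : HasMonB e d (M + l) ((Pool.Agent.H89T.NN n r R)^[l] P) := by
  induction l with
  | zero => exact hP
  | succ l ih =>
    rw [Function.iterate_succ_apply', ← add_assoc]
    exact hb_NN ih

/-- A multiple of a polynomial with monomials in `MonB` belongs to a submodule which contains the
multiples of the monomials. -/
theorem hb_smul_mem {R : Type} [CommRing R] {d : β → ℕ} {M : ℕ}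
    {N : Submodule R (MvPolynomial (JV n r) R)}
    {t : R} (h : ∀ μ ∈ MonB e r d M, t • monomial μ (1 : R) ∈ N)
    {P : MvPolynomial (JV n r) R} (hP : HasMonB e d M P) : t • P ∈ N := by
  rw [P.as_sum, Finset.smul_sum]
  refine Submodule.sum_mem _ fun μ hμ => ?_
  have : t • monomial μ (coeff μ P) = coeff μ P • (t • monomial μ (1 : R)) := by
    rw [smul_monomial, smul_monomial, smul_monomial]
    congr 1
    simp [mul_comm]
  rw [this]
  exact Submodule.smul_mem _ _ (h μ (hP μ hμ))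

theorem hb_of_mem {R : Type} [CommRing R] {d : β → ℕ} {M : ℕ} {μ : JV n r →₀ ℕ}
    (hμ : μ ∈ MonB e r d M) (c : R) : HasMonB e d M (monomial μ c) :=
  hb_monomial hμ.1 hμ.2 c

end Calculus

/-- One condition: reduction modulo two elements of an ideal at a special point of the parameters. -/
theorem onecondB [Fintype β] {τ : Type} (e : Co m ≃ Fin n) (p : τ → ℂ)
    (J : Ideal (MvPolynomial (JV n r) (MvPolynomial τ ℂ))) {d : β → ℕ} {M : ℕ} (om : JV n r → ℕ)
    (w : Fin 2 → MvPolynomial (JV n r) (MvPolynomial τ ℂ)) (hw : ∀ j, w j ∈ J)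
    (u : Fin 2 → (JV n r →₀ ℕ)) (hu : ∀ j, Lead om (MvPolynomial.map (eval p) (w j)) (u j))
    (hs : ∀ j, ∀ m' ∈ (w j).support, (∀ s, xdb e s m' ≤ xdb e s (u j)) ∧ jd m' ≤ jd (u j)) :
    ∃ t : MvPolynomial τ ℂ, t ≠ 0 ∧ ∀ μ ∈ MonB e r d M, t • monomial μ (1 : MvPolynomial τ ℂ) ∈
      J.restrictScalars (MvPolynomial τ ℂ) ⊔ Submodule.span (MvPolynomial τ ℂ)
        ((fun μ => monomial μ (1 : MvPolynomial τ ℂ)) ''
          {μ | μ ∈ MonB e r d M ∧ ¬ u 0 ≤ μ ∧ ¬ u 1 ≤ μ}) := by
  classical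
  obtain ⟨N, hN⟩ : ∃ N : Submodule (MvPolynomial τ ℂ) (MvPolynomial (JV n r) (MvPolynomial τ ℂ)),
    N = J.restrictScalars (MvPolynomial τ ℂ) ⊔ Submodule.span (MvPolynomial τ ℂ)
        ((fun μ => monomial μ (1 : MvPolynomial τ ℂ)) ''
          {μ | μ ∈ MonB e r d M ∧ ¬ u 0 ≤ μ ∧ ¬ u 1 ≤ μ}) := ⟨_, rfl⟩
  rw [← hN]
  let V : Submodule ℂ (MvPolynomial (JV n r) ℂ) :=
    { carrier := {f | ∃ G ∈ N, (∀ m' ∈ G.support, m' ∈ MonB e r d M) ∧
        MvPolynomial.map (eval p) G = f}
      add_mem' := by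
        rintro f g ⟨G, hG, hG1, hG2⟩ ⟨H, hH, hH1, hH2⟩
        refine ⟨G + H, N.add_mem hG hH, fun m' hm' => ?_, by rw [map_add, hG2, hH2]⟩
        rcases Finset.mem_union.mp (support_add hm') with h | h
        · exact hG1 m' h
        · exact hH1 m' h
      zero_mem' := ⟨0, N.zero_mem, fun m' hm' => by simp at hm', map_zero _⟩
      smul_mem' := by
        rintro c f ⟨G, hG, hG1, hG2⟩
        refine ⟨(C c : MvPolynomial τ ℂ) • G, N.smul_mem _ hG,
          fun m' hm' => hG1 m' (support_smul hm'), ?_⟩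
        rw [smul_eq_C_mul, map_mul, map_C, eval_C, hG2, ← smul_eq_C_mul] }
  have hV : ∀ μ ∈ MonB e r d M, MvPolynomial.monomial μ (1 : ℂ) ∈ V := by
    refine span_of_lead (MonB e r d M) om V ?_
    intro μ hμ
    by_cases hj : ∃ j, u j ≤ μ
    · obtain ⟨j, hj⟩ := hj
      have hsum : μ - u j + u j = μ := tsub_add_cancel_of_le hj
      have hx : ∀ s, xdb e s (μ - u j) + xdb e s (u j) = xdb e s μ := fun s => by
        rw [← xdb_add, hsum]
      have hjd : jd (μ - u j) + jd (u j) = jd μ := by rw [← jd_add, hsum]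
      have hsup : ∀ m' ∈ (monomial (μ - u j) (1 : MvPolynomial τ ℂ) * w j).support,
          m' ∈ MonB e r d M := by
        intro m' hm'
        obtain ⟨a, ha, b, hb, rfl⟩ := Finset.mem_add.mp (support_mul _ _ hm')
        have ha' := Finset.mem_singleton.mp (support_monomial_subset ha)
        subst ha'
        obtain ⟨h1, h2⟩ := hs j b hb
        have h3 := hμ.1
        have h4 : jd μ ≤ M := hμ.2
        refine ⟨fun s => ?_, ?_⟩
        · rw [xdb_add]
          have := h1 s
          have := h3 s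
          have := hx s
          omega
        · rw [jd_add]
          omega
      have hmap : MvPolynomial.map (eval p) (monomial (μ - u j) (1 : MvPolynomial τ ℂ) * w j) =
          monomial (μ - u j) (1 : ℂ) * MvPolynomial.map (eval p) (w j) := by
        rw [map_mul, map_monomial, map_one]
      refine ⟨monomial (μ - u j) (1 : ℂ) * MvPolynomial.map (eval p) (w j),
        ⟨monomial (μ - u j) (1 : MvPolynomial τ ℂ) * w j, ?_, hsup, hmap⟩, ?_, ?_⟩
      · rw [hN]
        exact Submodule.mem_sup_left (Ideal.mul_mem_left J _ (hw j))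
      · have h1 := (Lead.monomial om (μ - u j) (one_ne_zero (α := ℂ))).mul (hu j)
        rw [hsum] at h1
        exact h1
      · intro m' hm'
        rw [← hmap] at hm'
        exact hsup m' (support_map_subset _ _ hm')
    · have h0 : ¬ u 0 ≤ μ := fun h => hj ⟨0, h⟩
      have h1 : ¬ u 1 ≤ μ := fun h => hj ⟨1, h⟩
      refine ⟨monomial μ 1, ⟨monomial μ 1, ?_, ?_, ?_⟩, Lead.monomial om μ one_ne_zero, ?_⟩
      · rw [hN]
        exact Submodule.mem_sup_right (Submodule.subset_span ⟨μ, ⟨hμ, h0, h1⟩, rfl⟩)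
      · intro m' hm'
        rw [Finset.mem_singleton.mp (support_monomial_subset hm')]
        exact hμ
      · rw [map_monomial, map_one]
      · intro m' hm'
        rw [Finset.mem_singleton.mp (support_monomial_subset hm')]
        exact hμ
  have key : ∀ μ ∈ (MonB_finite e r d M).toFinset, ∃ G ∈ N,
      (∀ m' ∈ G.support, m' ∈ (MonB_finite e r d M).toFinset) ∧
        MvPolynomial.map (eval p) G = monomial μ 1 := by
    intro μ hμ
    obtain ⟨G, hG, hG1, hG2⟩ := hV μ ((MonB_finite e r d M).mem_toFinset.mp hμ)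
    exact ⟨G, hG, fun m' hm' => (MonB_finite e r d M).mem_toFinset.mpr (hG1 m' hm'), hG2⟩
  obtain ⟨t, ht, h⟩ := exists_smul_mem p (MonB_finite e r d M).toFinset N key
  exact ⟨t, ht, fun μ hμ => h μ ((MonB_finite e r d M).mem_toFinset.mpr hμ)⟩

end Pool.Agent.H49S
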