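import Pool.Agent.Lib.H49S.S1

set_option autoImplicit false

/-!
H49S, S2: the degrees of the Taylor coefficients of a factor (only the coordinates of its block occur).
-/

open MvPolynomial

namespace Pool.Agent.H49S

open Pool.Agent.H89T Pool.Agent.H78G Pool.Agent.H53Y Pool.Agent.H89Y Pool.Agent.H53R Pool.Agent.H78R

variable {β : Type} [DecidableEq β] {m : β → ℕ} {ι : Type} {sb : ι → β} {dg : ι → ℕ} {n r : ℕ}

theorem us_block {R : Type} [CommRing R] (e : Co m ≃ Fin n) (a : Cf m sb dg → R) (i : ι) (l : ℕ) :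
    ∀ μ ∈ (us (r := r) e a i l).support, ∀ q : JV n r, (e.symm q.1).1 ≠ sb i → μ q = 0 := by
  classical
  intro μ hμ q hq
  have h1 : us (r := r) e a i l =
      rename (fun q : JV (m (sb i)) r => ((e ⟨sb i, q.1⟩, q.2) : JV n r))
        (uu (fun α => (C (a ⟨i, α⟩) : MvPolynomial (JV (m (sb i)) r) R)) (fun q => X q) l) := by
    have h2 := uu_map (rename (R := R)
      (fun q : JV (m (sb i)) r => ((e ⟨sb i, q.1⟩, q.2) : JV n r))).toRingHom
      (fun α => (C (a ⟨i, α⟩) : MvPolynomial (JV (m (sb i)) r) R)) (fun q => X q) l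
    rw [c9_us]
    refine Eq.trans ?_ h2.symm
    have h3 : (fun α => (C (a ⟨i, α⟩) : MvPolynomial (JV n r) R)) =
        fun α => (rename (R := R)
          (fun q : JV (m (sb i)) r => ((e ⟨sb i, q.1⟩, q.2) : JV n r))).toRingHom
          (C (a ⟨i, α⟩) : MvPolynomial (JV (m (sb i)) r) R) := by
      funext α
      show _ = rename _ (C (a ⟨i, α⟩) : MvPolynomial (JV (m (sb i)) r) R)
      rw [rename_C]
    have h4 : (bj e (fun q => (X q : MvPolynomial (JV n r) R)) (sb i)) =
        fun q : JV (m (sb i)) r => (rename (R := R)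
          (fun q : JV (m (sb i)) r => ((e ⟨sb i, q.1⟩, q.2) : JV n r))).toRingHom
          (X q : MvPolynomial (JV (m (sb i)) r) R) := by
      funext q
      show _ = rename _ (X q : MvPolynomial (JV (m (sb i)) r) R)
      rw [rename_X]
      rfl
    rw [h3, h4]
  rw [h1, mem_support_iff] at hμ
  obtain ⟨u, hu, -⟩ := coeff_rename_ne_zero _ _ _ hμ
  rw [← hu]
  refine Finsupp.mapDomain_of_notMem_range _ _ ?_
  rintro ⟨p, hp⟩
  apply hq
  rw [← hp]
  simp

/-- The degrees of the value of a factor. -/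
theorem us_deg0 {R : Type} [CommRing R] (e : Co m ≃ Fin n) (a : Cf m sb dg → R) (i : ι) :
    HasMonB e (fun s => if s = sb i then dg i else 0) 0 (us (r := r) e a i 0) := by
  intro μ hμ
  have h := hasMon_us_zero (r := r) e a i μ hμ
  refine ⟨fun s => ?_, h.2⟩
  show xdb e s μ ≤ if s = sb i then dg i else 0
  split_ifs with hs
  · exact (xdb_le e s μ).trans h.1
  · refine le_of_eq (xdb_eq_zero e s μ fun b hb => us_block e a i 0 μ hμ (b, 0) ?_)
    rw [hb]
    exact hs

/-- The degrees of the first derivative of a factor. -/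
theorem us_deg1 {R : Type} [CommRing R] (e : Co m ≃ Fin n) (a : Cf m sb dg → R) (i : ι)
    (one : Fin (r + 1)) (h1 : (one : ℕ) = 1) :
    HasMonB e (fun s => if s = sb i then dg i - 1 else 0) 1 (us (r := r) e a i 1) := by
  intro μ hμ
  have h := hasMon_us_one (r := r) e a i one h1 μ hμ
  refine ⟨fun s => ?_, h.2⟩
  show xdb e s μ ≤ if s = sb i then dg i - 1 else 0
  split_ifs with hs
  · exact (xdb_le e s μ).trans h.1
  · refine le_of_eq (xdb_eq_zero e s μ fun b hb => us_block e a i 1 μ hμ (b, 0) ?_)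
    rw [hb]
    exact hs

/-- The degrees of a power of a coordinate. -/
theorem xdb_single0 (e : Co m ≃ Fin n) (s : β) (b : Co m) (k : ℕ) :
    xdb e s (Finsupp.single ((e b, 0) : JV n r) k) = if s = b.1 then k else 0 := by
  unfold xdb
  rw [Finset.sum_eq_single (e b)]
  · rw [Equiv.symm_apply_apply, Finsupp.single_eq_same]
    by_cases h : s = b.1
    · rw [if_pos h, if_pos h.symm]
    · rw [if_neg h, if_neg (fun h' => h h'.symm)]
  · intro b' _ hb'
    split_ifs
    · rw [Finsupp.single_eq_of_ne]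
      intro h
      exact hb' (congrArg Prod.fst h)
    · rfl
  · intro h
    exact absurd (Finset.mem_univ _) h

theorem xdb_single1 (e : Co m ≃ Fin n) (s : β) (q : JV n r) (hq : q.2 ≠ 0) (k : ℕ) :
    xdb e s (Finsupp.single q k) = 0 := by
  refine xdb_eq_zero e s _ fun b _ => ?_
  rw [Finsupp.single_eq_of_ne]
  rintro rfl
  exact hq rfl

end Pool.Agent.H49S
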