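import Pool.Agent.Lib.H49S.S2

set_option autoImplicit false

/-!
H49S, S3: the conditions of a pair of factors (port of Lib/H89Y/A3, A3a, A3b, A3c).
-/

open MvPolynomial

namespace Pool.Agent.H49S

open Pool.Agent.H89T Pool.Agent.H78G Pool.Agent.H53Y Pool.Agent.H89Y Pool.Agent.H53R Pool.Agent.H78R

variable {β : Type} [DecidableEq β] {m : β → ℕ} {ι : Type} {sb : ι → β} {dg : ι → ℕ} {n r : ℕ}

/-- The multiples by `t` of the monomials in `MonB` are combinations of the monomials in `κ` modulo the ideal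
of the pair `(i, i')`. -/
def CondB [DecidableEq ι] (e : Co m ≃ Fin n) (sb : ι → β) (dg : ι → ℕ) (i i' : ι) (d : β → ℕ) (M : ℕ)
    (κ : Set (JV n r →₀ ℕ)) : Prop :=
  ∃ t : MvPolynomial (Cf m sb dg) ℂ, t ≠ 0 ∧ ∀ μ ∈ MonB e r d M,
    t • monomial μ (1 : MvPolynomial (Cf m sb dg) ℂ) ∈
    (IG e (gnG m sb dg) i i').restrictScalars (MvPolynomial (Cf m sb dg) ℂ) ⊔
      Submodule.span (MvPolynomial (Cf m sb dg) ℂ)
        ((fun ν => monomial ν (1 : MvPolynomial (Cf m sb dg) ℂ)) '' κ)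

theorem CondB.weaken [DecidableEq ι] {e : Co m ≃ Fin n} {i i' : ι} {d : β → ℕ} {M : ℕ}
    {κ κ' : Set (JV n r →₀ ℕ)} (h : CondB e sb dg i i' d M κ) (hκ : κ ⊆ κ') :
    CondB e sb dg i i' d M κ' := by
  obtain ⟨t, ht, H⟩ := h
  refine ⟨t, ht, fun μ hμ => ?_⟩
  obtain ⟨y, hy, z, hz, hyz⟩ := Submodule.mem_sup.1 (H μ hμ)
  exact Submodule.mem_sup.2 ⟨y, hy, z, Submodule.span_mono (Set.image_mono hκ) hz, hyz⟩

/-- Tangency, degree at least `2`. -/
theorem condT' [Fintype β] [DecidableEq ι] (e : Co m ≃ Fin n) (i : ι) (hd : 2 ≤ dg i)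
    (b1 b2 : Fin (m (sb i))) (hb : b1 ≠ b2)
    (one : Fin (r + 1)) (h1 : (one : ℕ) = 1) (d : β → ℕ) (M : ℕ) :
    CondB (r := r) e sb dg i i d M {μ | μ ∈ MonB e r d M ∧ μ (e ⟨sb i, b1⟩, 0) < dg i ∧
      (μ (e ⟨sb i, b2⟩, 0) < dg i ∨ μ (e ⟨sb i, b2⟩, one) = 0)} := by
  classical
  have hone : one ≠ 0 := by
    intro h
    rw [h] at h1
    exact absurd h1 (by simp)
  have hq : e ⟨sb i, b1⟩ ≠ e ⟨sb i, b2⟩ := by
    intro h
    have h2 := e.injective h
    simp only [Sigma.mk.injEq, heq_eq_eq, true_and] at h2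
    exact hb h2
  obtain ⟨q1, hq1⟩ : ∃ q1, q1 = e ⟨sb i, b1⟩ := ⟨_, rfl⟩
  obtain ⟨q2, hq2⟩ : ∃ q2, q2 = e ⟨sb i, b2⟩ := ⟨_, rfl⟩
  rw [← hq1, ← hq2] at hq ⊢
  have hne : ∀ b b' : Fin n, ((b, 0) : JV n r) ≠ (b', one) := by
    intro b b' h
    exact hone (congrArg Prod.snd h).symm
  have hne1 : ((q2, 0) : JV n r) ≠ (q1, 0) := fun h => hq (congrArg Prod.fst h).symm
  have hne2 : ((q1, one) : JV n r) ≠ (q2, one) := fun h => hq (congrArg Prod.fst h)
  let c : ∀ j : ι, Finset (Fin (m (sb j))) := Function.update (fun _ => ∅) i {b1, b2}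
  have hc : c i = {b1, b2} := Function.update_self _ _ _
  let p : Cf m sb dg → ℂ := spc (m := m) (sb := sb) (dg := dg) c
  let om : JV n r → ℕ := fun q => if q = (q1, 0) then 1 else if q = (q2, one) then dg i + 1 else 0
  have om1 : om (q1, 0) = 1 := if_pos rfl
  have om2 : om (q2, one) = dg i + 1 := by
    show (if (q2, one) = (q1, 0) then 1 else if (q2, one) = (q2, one) then dg i + 1 else 0) = _
    rw [if_neg (hne q1 q2).symm, if_pos rfl]
  have om3 : om (q2, 0) = 0 := by
    show (if (q2, 0) = (q1, 0) then 1 else if (q2, 0) = (q2, one) then dg i + 1 else 0) = _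
    rw [if_neg hne1, if_neg (hne q2 q2)]
  have om4 : om (q1, one) = 0 := by
    show (if (q1, one) = (q1, 0) then 1 else if (q1, one) = (q2, one) then dg i + 1 else 0) = _
    rw [if_neg (hne q1 q1).symm, if_neg hne2]
  have hu0 : MvPolynomial.map (eval p) (us (r := r) e (gnG m sb dg) i 0) =
      monomial (Finsupp.single (q1, 0) (dg i)) 1 + monomial (Finsupp.single (q2, 0) (dg i)) 1 := by
    rw [map_us, us_spc_zero, hc, Finset.sum_pair hb, X_pow_eq_monomial, X_pow_eq_monomial, hq1, hq2]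
  have hm6 : ∀ b : Fin n, (C (dg i : ℂ) * (X (b, 0) ^ (dg i - 1) * X (b, one)) :
      MvPolynomial (JV n r) ℂ) =
      monomial (Finsupp.single ((b, 0) : JV n r) (dg i - 1) + Finsupp.single (b, one) 1)
        (dg i : ℂ) := by
    intro b
    rw [X_pow_eq_monomial, X, monomial_mul, C_mul_monomial, one_mul, mul_one]
  have hu1 : MvPolynomial.map (eval p) (us (r := r) e (gnG m sb dg) i 1) =
      monomial (Finsupp.single (q2, 0) (dg i - 1) + Finsupp.single (q2, one) 1) (dg i : ℂ) +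
      monomial (Finsupp.single (q1, 0) (dg i - 1) + Finsupp.single (q1, one) 1) (dg i : ℂ) := by
    rw [map_us, us_spc_one e c i one h1, hc, Finset.sum_pair hb, hm6, hm6, add_comm, hq1, hq2]
  have hkC : (dg i : ℂ) ≠ 0 := by
    exact_mod_cast (by omega : dg i ≠ 0)
  have hIG : IG (r := r) e (gnG m sb dg) i i =
      Ideal.span {us e (gnG m sb dg) i 0, us e (gnG m sb dg) i 1} := by
    unfold IG
    rw [if_pos rfl]
  have key := onecondB (n := n) (r := r) e p (IG e (gnG m sb dg) i i) (d := d) (M := M) om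
    ![us e (gnG m sb dg) i 0, us e (gnG m sb dg) i 1]
    (by
      rw [Fin.forall_fin_two, hIG]
      exact ⟨Ideal.subset_span (Set.mem_insert _ _),
        Ideal.subset_span (Set.mem_insert_of_mem _ (Set.mem_singleton _))⟩)
    ![Finsupp.single (q1, 0) (dg i), Finsupp.single (q2, 0) (dg i - 1) + Finsupp.single (q2, one) 1]
    (by
      rw [Fin.forall_fin_two]
      constructor
      · show Lead om (MvPolynomial.map (eval p) (us (r := r) e (gnG m sb dg) i 0))
          (Finsupp.single (q1, 0) (dg i))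
        rw [hu0]
        refine a3a_lead one_ne_zero ?_
        rw [a3a_weight, a3a_weight, om1, om3]
        omega
      · show Lead om (MvPolynomial.map (eval p) (us (r := r) e (gnG m sb dg) i 1))
          (Finsupp.single (q2, 0) (dg i - 1) + Finsupp.single (q2, one) 1)
        rw [hu1]
        refine a3a_lead hkC ?_
        rw [map_add, map_add, a3a_weight, a3a_weight, a3a_weight, a3a_weight, om1, om2, om3, om4]
        omega)
    (by
      rw [Fin.forall_fin_two]
      constructor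
      · show ∀ m' ∈ (us (r := r) e (gnG m sb dg) i 0).support,
          (∀ s, xdb e s m' ≤ xdb e s (Finsupp.single ((q1, 0) : JV n r) (dg i))) ∧
            jd m' ≤ jd (Finsupp.single ((q1, 0) : JV n r) (dg i))
        intro m' hm'
        have h5 := us_deg0 e (gnG m sb dg) i m' hm'
        refine ⟨fun s => ?_, ?_⟩
        · rw [hq1, xdb_single0]
          exact h5.1 s
        · exact h5.2.trans (Nat.zero_le _)
      · show ∀ m' ∈ (us (r := r) e (gnG m sb dg) i 1).support,
          (∀ s, xdb e s m' ≤ xdb e s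
            (Finsupp.single ((q2, 0) : JV n r) (dg i - 1) + Finsupp.single (q2, one) 1)) ∧
            jd m' ≤ jd (Finsupp.single ((q2, 0) : JV n r) (dg i - 1) + Finsupp.single (q2, one) 1)
        intro m' hm'
        have h5 := us_deg1 e (gnG m sb dg) i one h1 m' hm'
        refine ⟨fun s => ?_, ?_⟩
        · rw [xdb_add, hq2, xdb_single0, xdb_single1 e s _ hone, add_zero]
          exact h5.1 s
        · rw [jd_add, A2_jd_single1 _ hone]
          exact h5.2.trans (Nat.le_add_left _ _))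
  obtain ⟨t, ht, H⟩ := key
  refine CondB.weaken ⟨t, ht, H⟩ ?_
  rintro ν ⟨hν, h3, h4⟩
  have h3' : ¬ Finsupp.single ((q1, 0) : JV n r) (dg i) ≤ ν := h3
  have h4' : ¬ (Finsupp.single ((q2, 0) : JV n r) (dg i - 1) + Finsupp.single (q2, one) 1) ≤ ν := h4
  refine ⟨hν, ?_, ?_⟩
  · rw [Finsupp.single_le_iff] at h3'
    omega
  · by_contra hcon
    push Not at hcon
    obtain ⟨hn1, hn2⟩ := hcon
    apply h4'
    intro q
    rw [Finsupp.add_apply]
    by_cases hp : q = (q2, 0)
    · rw [hp, Finsupp.single_eq_same, Finsupp.single_eq_of_ne (hne q2 q2)]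
      omega
    · rw [Finsupp.single_eq_of_ne hp, zero_add]
      by_cases hp' : q = (q2, one)
      · rw [hp', Finsupp.single_eq_same]
        omega
      · rw [Finsupp.single_eq_of_ne hp']
        exact Nat.zero_le _

/-- Tangency of a linear factor. -/
theorem condL' [Fintype β] [DecidableEq ι] (e : Co m ≃ Fin n) (i : ι) (hd : dg i = 1)
    (b : Fin (m (sb i)))
    (one : Fin (r + 1)) (h1 : (one : ℕ) = 1) (d : β → ℕ) (M : ℕ) :
    CondB (r := r) e sb dg i i d M
      {μ | μ ∈ MonB e r d M ∧ μ (e ⟨sb i, b⟩, 0) < 1 ∧ μ (e ⟨sb i, b⟩, one) = 0} := by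
  have hone : one ≠ 0 := by
    intro h
    rw [h] at h1
    exact absurd h1 (by simp)
  obtain ⟨c, hc⟩ : ∃ c : ∀ i : ι, Finset (Fin (m (sb i))), c i = {b} := by
    classical
    exact ⟨Function.update (fun _ => ∅) i {b}, Function.update_self ..⟩
  have hI0 : us (r := r) e (gnG m sb dg) i 0 ∈ IG (r := r) e (gnG m sb dg) i i := by
    unfold IG
    rw [if_pos rfl]
    exact Ideal.subset_span (Set.mem_insert _ _)
  have hI1 : us (r := r) e (gnG m sb dg) i 1 ∈ IG (r := r) e (gnG m sb dg) i i := by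
    unfold IG
    rw [if_pos rfl]
    exact Ideal.subset_span (Set.mem_insert_of_mem _ rfl)
  have hE0 : MvPolynomial.map (eval (spc (m := m) (sb := sb) (dg := dg) c))
      (us (r := r) e (gnG m sb dg) i 0) =
        MvPolynomial.monomial (Finsupp.single (e ⟨sb i, b⟩, 0) 1) 1 := by
    rw [map_us, us_spc_zero, hc, Finset.sum_singleton, hd, pow_one]
    rfl
  have hE1 : MvPolynomial.map (eval (spc (m := m) (sb := sb) (dg := dg) c))
      (us (r := r) e (gnG m sb dg) i 1) =
        MvPolynomial.monomial (Finsupp.single (e ⟨sb i, b⟩, one) 1) 1 := by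
    rw [map_us, us_spc_one e c i one h1, hc, Finset.sum_singleton, hd, Nat.cast_one, map_one,
      one_mul, Nat.sub_self, pow_zero, one_mul]
    rfl
  obtain ⟨t, ht, h⟩ := onecondB (r := r) e (spc (m := m) (sb := sb) (dg := dg) c)
    (IG (r := r) e (gnG m sb dg) i i) (d := d) (M := M) (fun _ => 0)
    ![us (r := r) e (gnG m sb dg) i 0, us (r := r) e (gnG m sb dg) i 1]
    (by
      rw [Fin.forall_fin_two]
      exact ⟨hI0, hI1⟩)
    ![Finsupp.single (e ⟨sb i, b⟩, 0) 1, Finsupp.single (e ⟨sb i, b⟩, one) 1]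
    (by
      rw [Fin.forall_fin_two]
      constructor
      · show Lead _ (MvPolynomial.map (eval (spc (m := m) (sb := sb) (dg := dg) c))
          (us (r := r) e (gnG m sb dg) i 0)) (Finsupp.single (e ⟨sb i, b⟩, 0) 1)
        rw [hE0]
        exact Lead.monomial _ _ one_ne_zero
      · show Lead _ (MvPolynomial.map (eval (spc (m := m) (sb := sb) (dg := dg) c))
          (us (r := r) e (gnG m sb dg) i 1)) (Finsupp.single (e ⟨sb i, b⟩, one) 1)
        rw [hE1]
        exact Lead.monomial _ _ one_ne_zero)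
    (by
      rw [Fin.forall_fin_two]
      constructor
      · intro m' hm'
        show (∀ s, xdb e s m' ≤ xdb e s (Finsupp.single (e ⟨sb i, b⟩, (0 : Fin (r + 1))) 1)) ∧
          jd m' ≤ jd (Finsupp.single (e ⟨sb i, b⟩, (0 : Fin (r + 1))) 1)
        have h5 := us_deg0 (r := r) e (gnG m sb dg) i m' hm'
        refine ⟨fun s => ?_, h5.2.trans (Nat.zero_le _)⟩
        rw [xdb_single0]
        have h6 := h5.1 s
        simp only [hd] at h6
        exact h6
      · intro m' hm'
        show (∀ s, xdb e s m' ≤ xdb e s (Finsupp.single (e ⟨sb i, b⟩, one) 1)) ∧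
          jd m' ≤ jd (Finsupp.single (e ⟨sb i, b⟩, one) 1)
        have h5 := us_deg1 (r := r) e (gnG m sb dg) i one h1 m' hm'
        refine ⟨fun s => ?_, ?_⟩
        · rw [xdb_single1 e s _ hone]
          have h6 := h5.1 s
          simp only [hd, Nat.sub_self, ite_self] at h6
          exact h6
        · rw [A2_jd_single1 _ hone]
          exact h5.2)
  refine CondB.weaken ⟨t, ht, h⟩ ?_
  rintro ν ⟨hν, hν0, hν1⟩
  have h3 : ¬ Finsupp.single (e ⟨sb i, b⟩, (0 : Fin (r + 1))) 1 ≤ ν := hν0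
  have h4 : ¬ Finsupp.single (e ⟨sb i, b⟩, one) 1 ≤ ν := hν1
  rw [Finsupp.single_le_iff] at h3 h4
  exact ⟨hν, by omega, by omega⟩

/-- Crossing of two factors with two different coordinates. -/
theorem condX' [Fintype β] [DecidableEq ι] (e : Co m ≃ Fin n) (i i' : ι) (hii : i ≠ i')
    (b1 : Fin (m (sb i))) (b2 : Fin (m (sb i')))
    (d : β → ℕ) (M : ℕ) :
    CondB (r := r) e sb dg i i' d M
      {μ | μ ∈ MonB e r d M ∧ μ (e ⟨sb i, b1⟩, 0) < dg i ∧ μ (e ⟨sb i', b2⟩, 0) < dg i'} := by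
  obtain ⟨c, hc, hc'⟩ : ∃ c : ∀ i : ι, Finset (Fin (m (sb i))), c i = {b1} ∧ c i' = {b2} := by
    classical
    exact ⟨Function.update (Function.update (fun _ => ∅) i {b1}) i' {b2},
      by rw [Function.update_of_ne hii, Function.update_self], Function.update_self ..⟩
  have hI0 : us (r := r) e (gnG m sb dg) i 0 ∈ IG (r := r) e (gnG m sb dg) i i' := by
    unfold IG
    rw [if_neg hii]
    exact Ideal.subset_span (Set.mem_insert _ _)
  have hI1 : us (r := r) e (gnG m sb dg) i' 0 ∈ IG (r := r) e (gnG m sb dg) i i' := by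
    unfold IG
    rw [if_neg hii]
    exact Ideal.subset_span (Set.mem_insert_of_mem _ rfl)
  have hE0 : MvPolynomial.map (eval (spc (m := m) (sb := sb) (dg := dg) c))
      (us (r := r) e (gnG m sb dg) i 0) =
        MvPolynomial.monomial (Finsupp.single (e ⟨sb i, b1⟩, 0) (dg i)) 1 := by
    rw [map_us, us_spc_zero, hc, Finset.sum_singleton, X_pow_eq_monomial]
  have hE1 : MvPolynomial.map (eval (spc (m := m) (sb := sb) (dg := dg) c))
      (us (r := r) e (gnG m sb dg) i' 0) =
        MvPolynomial.monomial (Finsupp.single (e ⟨sb i', b2⟩, 0) (dg i')) 1 := by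
    rw [map_us, us_spc_zero, hc', Finset.sum_singleton, X_pow_eq_monomial]
  obtain ⟨t, ht, h⟩ := onecondB (r := r) e (spc (m := m) (sb := sb) (dg := dg) c)
    (IG (r := r) e (gnG m sb dg) i i') (d := d) (M := M) (fun _ => 0)
    ![us (r := r) e (gnG m sb dg) i 0, us (r := r) e (gnG m sb dg) i' 0]
    (by
      rw [Fin.forall_fin_two]
      exact ⟨hI0, hI1⟩)
    ![Finsupp.single (e ⟨sb i, b1⟩, 0) (dg i), Finsupp.single (e ⟨sb i', b2⟩, 0) (dg i')]
    (by
      rw [Fin.forall_fin_two]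
      constructor
      · show Lead _ (MvPolynomial.map (eval (spc (m := m) (sb := sb) (dg := dg) c))
          (us (r := r) e (gnG m sb dg) i 0)) (Finsupp.single (e ⟨sb i, b1⟩, 0) (dg i))
        rw [hE0]
        exact Lead.monomial _ _ one_ne_zero
      · show Lead _ (MvPolynomial.map (eval (spc (m := m) (sb := sb) (dg := dg) c))
          (us (r := r) e (gnG m sb dg) i' 0)) (Finsupp.single (e ⟨sb i', b2⟩, 0) (dg i'))
        rw [hE1]
        exact Lead.monomial _ _ one_ne_zero)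
    (by
      rw [Fin.forall_fin_two]
      constructor
      · intro m' hm'
        show (∀ s, xdb e s m' ≤ xdb e s (Finsupp.single (e ⟨sb i, b1⟩, (0 : Fin (r + 1))) (dg i))) ∧
          jd m' ≤ jd (Finsupp.single (e ⟨sb i, b1⟩, (0 : Fin (r + 1))) (dg i))
        have h5 := us_deg0 (r := r) e (gnG m sb dg) i m' hm'
        refine ⟨fun s => ?_, h5.2.trans (Nat.zero_le _)⟩
        rw [xdb_single0]
        exact h5.1 s
      · intro m' hm'
        show (∀ s, xdb e s m' ≤ xdb e s (Finsupp.single (e ⟨sb i', b2⟩, (0 : Fin (r + 1))) (dg i'))) ∧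
          jd m' ≤ jd (Finsupp.single (e ⟨sb i', b2⟩, (0 : Fin (r + 1))) (dg i'))
        have h5 := us_deg0 (r := r) e (gnG m sb dg) i' m' hm'
        refine ⟨fun s => ?_, h5.2.trans (Nat.zero_le _)⟩
        rw [xdb_single0]
        exact h5.1 s)
  refine CondB.weaken ⟨t, ht, h⟩ ?_
  rintro ν ⟨hν, hν0, hν1⟩
  have h3 : ¬ Finsupp.single (e ⟨sb i, b1⟩, (0 : Fin (r + 1))) (dg i) ≤ ν := hν0
  have h4 : ¬ Finsupp.single (e ⟨sb i', b2⟩, (0 : Fin (r + 1))) (dg i') ≤ ν := hν1
  rw [Finsupp.single_le_iff] at h3 h4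
  exact ⟨hν, by omega, by omega⟩

/-- Crossing of two linear factors of a block of dimension one. -/
theorem condD' [Fintype β] [DecidableEq ι] (e : Co m ≃ Fin n) (i i' : ι) (hii : i ≠ i')
    (hs : sb i = sb i') (hm : m (sb i) = 1)
    (hd : dg i = 1) (hd' : dg i' = 1) (d : β → ℕ) (M : ℕ) :
    CondB (r := r) e sb dg i i' d M ∅ := by
  obtain ⟨t, ht, h⟩ := condD (r := r) e i i' hii hs hm hd hd' (∑ s, d s) M
  exact ⟨t, ht, fun μ hμ => h μ (MonB_sub e d M hμ)⟩

end Pool.Agent.H49S
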