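import Pool.Agent.Lib.H49S.S1

set_option autoImplicit false

/-!
H49S, S4: upper bounds for the numbers of normal monomials (boxes).
-/

open MvPolynomial

namespace Pool.Agent.H49S

open Pool.Agent.H89T Pool.Agent.H78G Pool.Agent.H53Y Pool.Agent.H89Y Pool.Agent.H53R Pool.Agent.H78R

theorem box_le {n : ℕ} (p : (Fin n → ℕ) → Prop) (D : Fin n → ℕ) (h : ∀ f, p f → ∀ b, f b < D b) :
    Nat.card {f // p f} ≤ ∏ b, D b := by
  have h1 : Nat.card {f // p f} ≤ Nat.card ((b : Fin n) → Fin (D b)) := by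
    apply Nat.card_le_card_of_injective (fun f b => (⟨f.1 b, h f.1 f.2 b⟩ : Fin (D b)))
    intro f g hfg
    apply Subtype.ext
    funext b
    exact congrArg Fin.val (congrFun hfg b)
  refine h1.trans (le_of_eq ?_)
  rw [Nat.card_eq_fintype_card, Fintype.card_pi]
  simp

theorem box2 {n : ℕ} (D : Fin n → ℕ) {j1 j2 : Fin n} (h : j1 ≠ j2) (k1 k2 : ℕ) :
    ((∏ b, (if b = j1 then k1 else if b = j2 then k2 else D b + 1) : ℕ) : ℝ) =
      (k1 / ((D j1 : ℝ) + 1)) * (k2 / ((D j2 : ℝ) + 1)) * ∏ b, ((D b : ℝ) + 1) := by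
  have h1 : ∀ b : Fin n, (((if b = j1 then k1 else if b = j2 then k2 else D b + 1) : ℕ) : ℝ) =
      (if b = j1 then (k1 : ℝ) / ((D j1 : ℝ) + 1) else
        if b = j2 then (k2 : ℝ) / ((D j2 : ℝ) + 1) else 1) * ((D b : ℝ) + 1) := by
    intro b
    have h2 : ((D b : ℝ) + 1) ≠ 0 := by positivity
    split_ifs with hb hb'
    · subst hb
      field_simp
    · subst hb'
      field_simp
    · push_cast
      ring
  rw [Nat.cast_prod, Finset.prod_congr rfl fun b _ => h1 b, Finset.prod_mul_distrib]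
  congr 1
  rw [Fintype.prod_eq_mul j1 j2 h]
  · rw [if_pos rfl, if_neg h.symm, if_pos rfl]
  · rintro b ⟨hb1, hb2⟩
    rw [if_neg hb1, if_neg hb2]

theorem box1 {n : ℕ} (D : Fin n → ℕ) (j : Fin n) (k : ℕ) :
    ((∏ b, (if b = j then k else D b + 1) : ℕ) : ℝ) =
      (k / ((D j : ℝ) + 1)) * ∏ b, ((D b : ℝ) + 1) := by
  have h1 : ∀ b : Fin n, (((if b = j then k else D b + 1) : ℕ) : ℝ) =
      (if b = j then (k : ℝ) / ((D j : ℝ) + 1) else 1) * ((D b : ℝ) + 1) := by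
    intro b
    have h2 : ((D b : ℝ) + 1) ≠ 0 := by positivity
    split_ifs with hb
    · subst hb
      field_simp
    · push_cast
      ring
  rw [Nat.cast_prod, Finset.prod_congr rfl fun b _ => h1 b, Finset.prod_mul_distrib]
  congr 1
  rw [Finset.prod_ite_eq']
  simp

variable {β : Type} [DecidableEq β] {m : β → ℕ} {n r : ℕ}

/-- The upper bound for all monomials (a box). -/
noncomputable def UU (e : Co m ≃ Fin n) (d : β → ℕ) : ℝ := ∏ b, ((d (e.symm b).1 : ℝ) + 1)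

theorem UU_nonneg (e : Co m ≃ Fin n) (d : β → ℕ) : 0 ≤ UU e d :=
  Finset.prod_nonneg fun _ _ => by positivity

theorem s4_single (e : Co m ≃ Fin n) (d : β → ℕ) (f : Fin n → ℕ)
    (h : ∀ s, (∑ b, if (e.symm b).1 = s then f b else 0) ≤ d s) (b : Fin n) :
    f b ≤ d (e.symm b).1 := by
  refine le_trans ?_ (h (e.symm b).1)
  refine le_trans (le_of_eq ?_) (Finset.single_le_sum
    (f := fun b' => if (e.symm b').1 = (e.symm b).1 then f b' else 0)
    (fun _ _ => Nat.zero_le _) (Finset.mem_univ b))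
  simp

/-- Two small coordinate exponents. -/
theorem ncard_A [Fintype β] (e : Co m ≃ Fin n) {j1 j2 : Fin n} (h : j1 ≠ j2) (k1 k2 : ℕ)
    (d : β → ℕ) (M : ℕ) :
    ((({μ | μ ∈ MonB e r d M ∧ μ (j1, 0) < k1 ∧ μ (j2, 0) < k2} :
      Set (JV n r →₀ ℕ)).ncard : ℕ) : ℝ) ≤
      (k1 / ((d (e.symm j1).1 : ℝ) + 1)) * (k2 / ((d (e.symm j2).1 : ℝ) + 1)) * UU e d *
        ((M + n * r).choose (n * r) : ℝ) := by
  classical
  have h1 : ({μ | μ ∈ MonB e r d M ∧ μ (j1, 0) < k1 ∧ μ (j2, 0) < k2} :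
      Set (JV n r →₀ ℕ)).ncard ≤
      (∏ b, (if b = j1 then k1 else if b = j2 then k2 else d (e.symm b).1 + 1)) *
        (M + n * r).choose (n * r) := by
    rw [← Nat.card_coe_set_eq, K2_card (fun f => (∀ s, (∑ b, if (e.symm b).1 = s then f b else 0) ≤ d s) ∧
      f j1 < k1 ∧ f j2 < k2) (fun g => ∑ p, g p ≤ M) _]
    · apply Nat.mul_le_mul
      · refine box_le _ _ ?_
        rintro f ⟨h2, h3, h4⟩ b
        split_ifs with hb hb'
        · rw [hb]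
          exact h3
        · rw [hb']
          exact h4
        · exact Nat.lt_succ_of_le (s4_single e d f h2 b)
      · rw [card_exp]
        simp
    · intro μ
      show ((∀ s, xdb e s μ ≤ d s) ∧ jd μ ≤ M) ∧ μ (j1, 0) < k1 ∧ μ (j2, 0) < k2 ↔ _
      rw [jd_split]
      constructor
      · rintro ⟨⟨a1, a2⟩, a3, a4⟩
        exact ⟨⟨a1, a3, a4⟩, a2⟩
      · rintro ⟨⟨a1, a3, a4⟩, a2⟩
        exact ⟨⟨a1, a2⟩, a3, a4⟩
  have h2 := box2 (fun b => d (e.symm b).1) h k1 k2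
  have h3 : ((({μ | μ ∈ MonB e r d M ∧ μ (j1, 0) < k1 ∧ μ (j2, 0) < k2} :
      Set (JV n r →₀ ℕ)).ncard : ℕ) : ℝ) ≤
      (((∏ b, (if b = j1 then k1 else if b = j2 then k2 else d (e.symm b).1 + 1)) *
        (M + n * r).choose (n * r) : ℕ) : ℝ) := by
    exact_mod_cast h1
  refine h3.trans (le_of_eq ?_)
  rw [Nat.cast_mul, h2]
  rfl

/-- One small coordinate exponent and one jet exponent `0`. -/
theorem ncard_B [Fintype β] (e : Co m ≃ Fin n) (j1 j2 : Fin n) (one : Fin (r + 1))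
    (h1 : (one : ℕ) = 1) (k : ℕ) (d : β → ℕ) (M : ℕ) :
    ((({μ | μ ∈ MonB e r d M ∧ μ (j1, 0) < k ∧ μ (j2, one) = 0} :
      Set (JV n r →₀ ℕ)).ncard : ℕ) : ℝ) ≤
      (k / ((d (e.symm j1).1 : ℝ) + 1)) * UU e d *
        ((M + (n * r - 1)).choose (n * r - 1) : ℝ) := by
  classical
  have hr : 0 < r := by
    have := one.2
    omega
  obtain ⟨z, hz⟩ : ∃ z : Fin r, z = ⟨0, hr⟩ := ⟨_, rfl⟩
  have hone : one = z.succ := by
    apply Fin.ext
    simp [hz, h1]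
  have h1 : ({μ | μ ∈ MonB e r d M ∧ μ (j1, 0) < k ∧ μ (j2, one) = 0} :
      Set (JV n r →₀ ℕ)).ncard ≤
      (∏ b, (if b = j1 then k else d (e.symm b).1 + 1)) *
        (M + (n * r - 1)).choose (n * r - 1) := by
    rw [← Nat.card_coe_set_eq, K2_card (fun f => (∀ s, (∑ b, if (e.symm b).1 = s then f b else 0) ≤ d s) ∧
      f j1 < k) (fun g => ∑ p, g p ≤ M ∧ g (j2, z) = 0) _]
    · apply Nat.mul_le_mul
      · refine box_le _ _ ?_
        rintro f ⟨h2, h3⟩ b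
        split_ifs with hb
        · rw [hb]
          exact h3
        · exact Nat.lt_succ_of_le (s4_single e d f h2 b)
      · have := K2_card_zero_at (Fin n × Fin r) M (j2, z)
        simpa using this
    · intro μ
      show ((∀ s, xdb e s μ ≤ d s) ∧ jd μ ≤ M) ∧ μ (j1, 0) < k ∧ μ (j2, one) = 0 ↔ _
      rw [jd_split, hone]
      constructor
      · rintro ⟨⟨a1, a2⟩, a3, a4⟩
        exact ⟨⟨a1, a3⟩, a2, a4⟩
      · rintro ⟨⟨a1, a3⟩, a2, a4⟩
        exact ⟨⟨a1, a2⟩, a3, a4⟩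
  have h2 := box1 (fun b => d (e.symm b).1) j1 k
  have h3 : ((({μ | μ ∈ MonB e r d M ∧ μ (j1, 0) < k ∧ μ (j2, one) = 0} :
      Set (JV n r →₀ ℕ)).ncard : ℕ) : ℝ) ≤
      (((∏ b, (if b = j1 then k else d (e.symm b).1 + 1)) *
        (M + (n * r - 1)).choose (n * r - 1) : ℕ) : ℝ) := by
    exact_mod_cast h1
  refine h3.trans (le_of_eq ?_)
  rw [Nat.cast_mul, h2]
  rfl

/-- The normal monomials of the tangency condition. -/
theorem ncard_T [Fintype β] (e : Co m ≃ Fin n) {j1 j2 : Fin n} (h : j1 ≠ j2) (one : Fin (r + 1))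
    (h1 : (one : ℕ) = 1) (k : ℕ) (d : β → ℕ) (M : ℕ) :
    ((({μ | μ ∈ MonB e r d M ∧ μ (j1, 0) < k ∧ (μ (j2, 0) < k ∨ μ (j2, one) = 0)} :
      Set (JV n r →₀ ℕ)).ncard : ℕ) : ℝ) ≤
      (k / ((d (e.symm j1).1 : ℝ) + 1)) * (k / ((d (e.symm j2).1 : ℝ) + 1)) * UU e d *
        ((M + n * r).choose (n * r) : ℝ) +
      (k / ((d (e.symm j1).1 : ℝ) + 1)) * UU e d *
        ((M + (n * r - 1)).choose (n * r - 1) : ℝ) := by
  have hsub : ({μ | μ ∈ MonB e r d M ∧ μ (j1, 0) < k ∧ (μ (j2, 0) < k ∨ μ (j2, one) = 0)} :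
      Set (JV n r →₀ ℕ)) ⊆ {μ | μ ∈ MonB e r d M ∧ μ (j1, 0) < k ∧ μ (j2, 0) < k} ∪
        {μ | μ ∈ MonB e r d M ∧ μ (j1, 0) < k ∧ μ (j2, one) = 0} := by
    rintro μ ⟨a1, a2, a3 | a3⟩
    · exact Or.inl ⟨a1, a2, a3⟩
    · exact Or.inr ⟨a1, a2, a3⟩
  have hA : ({μ | μ ∈ MonB e r d M ∧ μ (j1, 0) < k ∧ μ (j2, 0) < k} :
      Set (JV n r →₀ ℕ)).Finite := (MonB_finite e r d M).subset fun μ hμ => hμ.1
  have hB : ({μ | μ ∈ MonB e r d M ∧ μ (j1, 0) < k ∧ μ (j2, one) = 0} :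
      Set (JV n r →₀ ℕ)).Finite := (MonB_finite e r d M).subset fun μ hμ => hμ.1
  have h2 := (Set.ncard_le_ncard hsub (hA.union hB)).trans (Set.ncard_union_le _ _)
  have h3 : ((({μ | μ ∈ MonB e r d M ∧ μ (j1, 0) < k ∧ (μ (j2, 0) < k ∨ μ (j2, one) = 0)} :
      Set (JV n r →₀ ℕ)).ncard : ℕ) : ℝ) ≤
      ((({μ | μ ∈ MonB e r d M ∧ μ (j1, 0) < k ∧ μ (j2, 0) < k} :
        Set (JV n r →₀ ℕ)).ncard : ℕ) : ℝ) +
      ((({μ | μ ∈ MonB e r d M ∧ μ (j1, 0) < k ∧ μ (j2, one) = 0} :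
        Set (JV n r →₀ ℕ)).ncard : ℕ) : ℝ) := by
    exact_mod_cast h2
  exact h3.trans (add_le_add (ncard_A e h k k d M) (ncard_B e j1 j2 one h1 k d M))

end Pool.Agent.H49S
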