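import Pool.Agent.Lib.H49S.S3
import Pool.Agent.Lib.H49S.S4

set_option autoImplicit false

/-!
H49S, S5: all pairs of factors; existence of the operator for the generic arrangement under the counting
hypothesis (port of Lib/H89Y/A5, A7).
-/

open MvPolynomial

namespace Pool.Agent.H49S

open Pool.Agent.H89T Pool.Agent.H78G Pool.Agent.H53Y Pool.Agent.H89Y Pool.Agent.H53R Pool.Agent.H78R

variable {β : Type} [DecidableEq β] {m : β → ℕ} {ι : Type} {sb : ι → β} {dg : ι → ℕ} {n r : ℕ}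

theorem s5_fst (e : Co m ≃ Fin n) (x : Co m) : (e.symm (e x)).1 = x.1 := by
  rw [Equiv.symm_apply_apply]

/-- All pairs of factors. -/
theorem exists_condB [Fintype β] [DecidableEq ι] (e : Co m ≃ Fin n) (hm : ∀ s, 1 ≤ m s)
    (hT : ∀ i, dg i = 1 ∨ (2 ≤ dg i ∧ 2 ≤ m (sb i))) (one : Fin (r + 1)) (h1 : (one : ℕ) = 1)
    (i i' : ι) (d : β → ℕ) (M : ℕ) :
    ∃ κ : Set (JV n r →₀ ℕ), κ.Finite ∧ CondB e sb dg i i' d M κ ∧
      ((κ.ncard : ℕ) : ℝ) ≤ (dg i / ((d (sb i) : ℝ) + 1)) * (dg i' / ((d (sb i') : ℝ) + 1)) *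
        UU e d * ((M + n * r).choose (n * r) : ℝ) +
        (if i = i' then (dg i / ((d (sb i) : ℝ) + 1)) * UU e d *
          ((M + (n * r - 1)).choose (n * r - 1) : ℝ) else 0) := by
  have hU := UU_nonneg e d
  by_cases hii : i = i'
  · subst hii
    rw [if_pos rfl]
    rcases hT i with hd | ⟨hd, hm2⟩
    · refine ⟨_, ?_, condL' e i hd ⟨0, hm _⟩ one h1 d M, ?_⟩
      · exact (MonB_finite e r d M).subset fun x hx => hx.1
      · refine (ncard_B e _ _ one h1 1 d M).trans ?_
        rw [s5_fst, hd]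
        refine le_add_of_nonneg_left ?_
        positivity
    · have hb : (⟨0, by omega⟩ : Fin (m (sb i))) ≠ ⟨1, by omega⟩ := by
        intro h
        exact absurd (congrArg Fin.val h) (by norm_num)
      refine ⟨_, ?_, condT' e i hd ⟨0, by omega⟩ ⟨1, by omega⟩ hb one h1 d M, ?_⟩
      · exact (MonB_finite e r d M).subset fun x hx => hx.1
      · have h3 := ncard_T e (j1 := e ⟨sb i, ⟨0, by omega⟩⟩) (j2 := e ⟨sb i, ⟨1, by omega⟩⟩)
          (fun h => hb (by
            have h2 := e.injective h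
            have h3 : HEq (⟨0, by omega⟩ : Fin (m (sb i))) (⟨1, by omega⟩ : Fin (m (sb i))) :=
              (Sigma.mk.inj h2).2
            exact eq_of_heq h3)) one h1 (dg i) d M
        rw [s5_fst, s5_fst] at h3
        exact h3
  · rw [if_neg hii, add_zero]
    by_cases hs : sb i = sb i' ∧ m (sb i) = 1
    · obtain ⟨hs, hm1⟩ := hs
      have hd : dg i = 1 := (hT i).resolve_right fun h => by
        have := h.2
        omega
      have hd' : dg i' = 1 := (hT i').resolve_right fun h => by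
        have h2 := h.2
        rw [← hs] at h2
        omega
      refine ⟨∅, Set.finite_empty, condD' e i i' hii hs hm1 hd hd' d M, ?_⟩
      rw [Set.ncard_empty, Nat.cast_zero]
      positivity
    · obtain ⟨b1, b2, hb⟩ : ∃ (b1 : Fin (m (sb i))) (b2 : Fin (m (sb i'))), (⟨sb i, b1⟩ : Co m) ≠ ⟨sb i', b2⟩ := by
        by_cases hs' : sb i = sb i'
        · have h2 : m (sb i) ≠ 1 := fun h => hs ⟨hs', h⟩
          have h3 := hm (sb i)
          have h4 : 2 ≤ m (sb i') := by
            rw [← hs']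
            omega
          refine ⟨⟨0, h3⟩, ⟨1, h4⟩, fun h => ?_⟩
          have h5 := congrArg (fun x : Co m => (x.2 : ℕ)) h
          exact absurd h5 (by norm_num)
        · exact ⟨⟨0, hm _⟩, ⟨0, hm _⟩, fun h => hs' (congrArg Sigma.fst h)⟩
      have h3 := ncard_A (r := r) e (fun h => hb (e.injective h)) (dg i) (dg i') d M
      rw [s5_fst, s5_fst] at h3
      refine ⟨_, ?_, condX' e i i' hii b1 b2 d M, h3⟩
      exact (MonB_finite e r d M).subset fun x hx => hx.1

/-- Existence of the operator under the counting hypothesis. -/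
theorem exists_PB [Fintype β] [Fintype ι] [DecidableEq ι] (e : Co m ≃ Fin n) (hm : ∀ s, 1 ≤ m s)
    (hT : ∀ i, dg i = 1 ∨ (2 ≤ dg i ∧ 2 ≤ m (sb i))) (hr : 1 ≤ r) (d : β → ℕ) (M : ℕ)
    (hc : ∑ l ∈ Finset.range r,
      ((∑ i, (dg i : ℝ) / ((d (sb i) : ℝ) + 1)) * (∑ i, (dg i : ℝ) / ((d (sb i) : ℝ) + 1)) *
        UU e d * ((M + l + n * r).choose (n * r) : ℝ) +
        (∑ i, (dg i : ℝ) / ((d (sb i) : ℝ) + 1)) * UU e d *
          ((M + l + (n * r - 1)).choose (n * r - 1) : ℝ)) <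
      (((MonB e r d M).ncard : ℕ) : ℝ)) :
    ∃ P : MvPolynomial (JV n r) (MvPolynomial (Cf m sb dg) ℂ), P ≠ 0 ∧ HasMonB e d M P ∧
      PropG e (gnG m sb dg) r P := by
  classical
  have hone : ∃ one : Fin (r + 1), (one : ℕ) = 1 := ⟨⟨1, by omega⟩, rfl⟩
  obtain ⟨one, h1⟩ := hone
  have hex : ∀ x : (ι × ι) × Fin r, ∃ κ : Set (JV n r →₀ ℕ), κ.Finite ∧
      CondB e sb dg x.1.1 x.1.2 d (M + (x.2 : ℕ)) κ ∧
      ((κ.ncard : ℕ) : ℝ) ≤ (dg x.1.1 / ((d (sb x.1.1) : ℝ) + 1)) *
        (dg x.1.2 / ((d (sb x.1.2) : ℝ) + 1)) *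
        UU e d * ((M + (x.2 : ℕ) + n * r).choose (n * r) : ℝ) +
        (if x.1.1 = x.1.2 then (dg x.1.1 / ((d (sb x.1.1) : ℝ) + 1)) * UU e d *
          ((M + (x.2 : ℕ) + (n * r - 1)).choose (n * r - 1) : ℝ) else 0) := fun x =>
    exists_condB e hm hT one h1 x.1.1 x.1.2 d (M + (x.2 : ℕ))
  choose κ hfin hcond hcard using hex
  choose t ht0 ht using hcond
  have : Fintype (MonB e r d M) := (MonB_finite e r d M).fintype
  have : ∀ x : (ι × ι) × Fin r, Fintype (κ x) := fun x => (hfin x).fintype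
  obtain ⟨q, hq0, hq⟩ := exists_coeffsL (R := MvPolynomial (Cf m sb dg) ℂ)
    (V := MvPolynomial (JV n r) (MvPolynomial (Cf m sb dg) ℂ))
    (ι := MonB e r d M) (L := (ι × ι) × Fin r)
    (fun m' => monomial m'.1 (1 : MvPolynomial (Cf m sb dg) ℂ))
    (fun x => (NN n r (MvPolynomial (Cf m sb dg) ℂ)).toLinearMap ^ (x.2 : ℕ))
    (fun x => (IG e (gnG m sb dg) x.1.1 x.1.2).restrictScalars (MvPolynomial (Cf m sb dg) ℂ))
    (fun x => κ x) (fun x m' => monomial m'.1 (1 : MvPolynomial (Cf m sb dg) ℂ)) t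
    (by
      intro x m'
      have h := hb_smul_mem (ht x)
        (P := (NN n r (MvPolynomial (Cf m sb dg) ℂ))^[(x.2 : ℕ)] (monomial m'.1 1))
        (hb_NN_iterate (hb_of_mem m'.2 1) (x.2 : ℕ))
      rw [Set.image_eq_range] at h
      have e2 : ((NN n r (MvPolynomial (Cf m sb dg) ℂ)).toLinearMap ^ (x.2 : ℕ)) (monomial m'.1 1) =
          (NN n r (MvPolynomial (Cf m sb dg) ℂ))^[(x.2 : ℕ)] (monomial m'.1 1) := by
        rw [Module.End.pow_apply]
        rfl
      rw [e2]
      exact h)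
    (by
      have hc1 : ∀ x : (ι × ι) × Fin r, Fintype.card (κ x) = (κ x).ncard := fun x => by
        rw [← Nat.card_coe_set_eq, Nat.card_eq_fintype_card]
      have hc2 : Fintype.card (MonB e r d M) = (MonB e r d M).ncard := by
        rw [← Nat.card_coe_set_eq, Nat.card_eq_fintype_card]
      rw [hc2]
      have hle : ((∑ x : (ι × ι) × Fin r, Fintype.card (κ x) : ℕ) : ℝ) ≤
          ∑ x : (ι × ι) × Fin r, ((dg x.1.1 / ((d (sb x.1.1) : ℝ) + 1)) *
            (dg x.1.2 / ((d (sb x.1.2) : ℝ) + 1)) *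
            UU e d * ((M + (x.2 : ℕ) + n * r).choose (n * r) : ℝ) +
            (if x.1.1 = x.1.2 then (dg x.1.1 / ((d (sb x.1.1) : ℝ) + 1)) * UU e d *
              ((M + (x.2 : ℕ) + (n * r - 1)).choose (n * r - 1) : ℝ) else 0)) := by
        rw [Nat.cast_sum]
        exact Finset.sum_le_sum fun x _ => by
          rw [hc1]
          exact hcard x
      have hfinal : ((∑ x : (ι × ι) × Fin r, Fintype.card (κ x) : ℕ) : ℝ) <
          (((MonB e r d M).ncard : ℕ) : ℝ) := by
        refine lt_of_le_of_lt hle (lt_of_eq_of_lt ?_ hc)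
        rw [Fintype.sum_prod_type_right, Finset.sum_range]
        refine Finset.sum_congr rfl fun l _ => ?_
        rw [Fintype.sum_prod_type]
        simp only [Finset.sum_add_distrib]
        congr 1
        · simp only [← Finset.sum_mul]
          rw [Finset.sum_mul_sum]
        · simp only [Finset.sum_ite_eq, Finset.mem_univ, if_true]
          rw [Finset.sum_mul, Finset.sum_mul]
      exact_mod_cast hfinal)
  obtain ⟨m', hm'⟩ := Function.ne_iff.mp hq0
  refine ⟨(∏ x, t x) • ∑ i : MonB e r d M, q i • monomial i.1 (1 : MvPolynomial (Cf m sb dg) ℂ),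
    ?_, ?_, ?_⟩
  · intro h0
    have h := congrArg (coeff m'.1) h0
    rw [coeff_smul, A5_coeff, coeff_zero, smul_eq_mul, mul_eq_zero] at h
    rcases h with h | h
    · exact Finset.prod_ne_zero_iff.mpr (fun x _ => ht0 x) h
    · exact hm' h
  · exact hb_smul _ (hb_sum fun i _ => hb_smul _ (hb_of_mem i.2 1))
  · intro l hl i i'
    have h := hq ((i, i'), ⟨l, hl⟩)
    rw [Submodule.restrictScalars_mem] at h
    have h2 : (NN n r (MvPolynomial (Cf m sb dg) ℂ))^[l] ((∏ x, t x) • ∑ i : MonB e r d M,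
        q i • monomial i.1 (1 : MvPolynomial (Cf m sb dg) ℂ)) =
        (∏ x ∈ Finset.univ.erase ((i, i'), ⟨l, hl⟩), t x) • (t ((i, i'), ⟨l, hl⟩) •
          ((NN n r (MvPolynomial (Cf m sb dg) ℂ)).toLinearMap ^ l) (∑ i : MonB e r d M,
            q i • monomial i.1 (1 : MvPolynomial (Cf m sb dg) ℂ))) := by
      rw [smul_smul, mul_comm, Finset.mul_prod_erase _ _ (Finset.mem_univ _), ← map_smul,
        Module.End.pow_apply]
      rfl
    rw [h2]
    exact Submodule.smul_of_tower_mem _ _ h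

end Pool.Agent.H49S
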