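import Pool.Agent.Lib.H49S.S5
import Pool.Agent.Lib.H78R.R10

set_option autoImplicit false

/-!
H49S, S6: the lower bound, the choice of the parameters, part A of `AC_P` (`exP`), `AC_P` (`algP`).
-/

open MvPolynomial

namespace Pool.Agent.H49S

open Pool.Agent.H89T Pool.Agent.H78G Pool.Agent.H53Y Pool.Agent.H89Y Pool.Agent.H53R Pool.Agent.H78R

variable {β : Type} [DecidableEq β] {m : β → ℕ} {n r : ℕ}

/-- The lower bound for the number of monomials. -/
theorem monB_ge [Fintype β] (e : Co m ≃ Fin n) (hn : 1 ≤ n) (d : β → ℕ) (M : ℕ) :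
    (∏ b : Fin n, ((d (e.symm b).1 : ℝ) / n)) * ((M + n * r).choose (n * r) : ℝ) ≤
      (((MonB e r d M).ncard : ℕ) : ℝ) := by
  classical
  have h1 : (∏ b : Fin n, (d (e.symm b).1 / n + 1)) * (M + n * r).choose (n * r) ≤
      (MonB e r d M).ncard := by
    rw [← Nat.card_coe_set_eq, K2_card (fun f => ∀ s, (∑ b, if (e.symm b).1 = s then f b else 0) ≤ d s)
      (fun g => ∑ p, g p ≤ M) _]
    · apply Nat.mul_le_mul
      · have hfin : Finite {f : Fin n → ℕ // ∀ s, (∑ b, if (e.symm b).1 = s then f b else 0) ≤ d s} :=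
          Set.Finite.to_subtype ((Set.finite_Iic (fun b => d (e.symm b).1)).subset
            fun f hf b => s4_single e d f hf b)
        have h2 : (∏ b : Fin n, (d (e.symm b).1 / n + 1)) =
            Nat.card ((b : Fin n) → Fin (d (e.symm b).1 / n + 1)) := by
          rw [Nat.card_eq_fintype_card, Fintype.card_pi]
          simp
        rw [h2]
        refine Nat.card_le_card_of_injective (fun f => ⟨fun b => (f b : ℕ), fun s => ?_⟩) ?_
        · have h3 : (∑ b, if (e.symm b).1 = s then (f b : ℕ) else 0) ≤ ∑ _b : Fin n, d s / n := by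
            refine Finset.sum_le_sum fun b _ => ?_
            split_ifs with hb
            · have h4 := (f b).2
              rw [← hb]
              omega
            · exact Nat.zero_le _
          refine h3.trans ?_
          rw [Finset.sum_const, Finset.card_univ, Fintype.card_fin, smul_eq_mul]
          exact Nat.mul_div_le _ _
        · intro f g hfg
          funext b
          apply Fin.ext
          exact congrFun (congrArg Subtype.val hfg) b
      · rw [card_exp]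
        simp
    · intro μ
      show (∀ s, xdb e s μ ≤ d s) ∧ jd μ ≤ M ↔ _
      rw [jd_split]
      exact Iff.rfl
  have h2 : (((∏ b : Fin n, (d (e.symm b).1 / n + 1)) * (M + n * r).choose (n * r) : ℕ) : ℝ) ≤
      (((MonB e r d M).ncard : ℕ) : ℝ) := by
    exact_mod_cast h1
  refine le_trans ?_ h2
  rw [Nat.cast_mul, Nat.cast_prod]
  refine mul_le_mul_of_nonneg_right ?_ (Nat.cast_nonneg _)
  refine Finset.prod_le_prod (fun b _ => by positivity) fun b _ => ?_
  have hn0 : (0 : ℝ) < n := by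
    have : 0 < n := by omega
    exact_mod_cast this
  rw [div_le_iff₀ hn0]
  have h3 := (Nat.lt_mul_div_succ (d (e.symm b).1) (by omega : 0 < n)).le
  have h4 : ((d (e.symm b).1 : ℕ) : ℝ) ≤ ((n * (d (e.symm b).1 / n + 1) : ℕ) : ℝ) := by
    exact_mod_cast h3
  refine h4.trans (le_of_eq ?_)
  rw [Nat.cast_mul, mul_comm]

/-- The upper bound in terms of the lower bound. -/
theorem UU_le (e : Co m ≃ Fin n) (hn : 1 ≤ n) (d : β → ℕ) (hd : ∀ s, 1 ≤ d s) :
    UU e d ≤ (2 * n : ℝ) ^ n * ∏ b : Fin n, ((d (e.symm b).1 : ℝ) / n) := by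
  have hn0 : (0 : ℝ) < n := by
    have : 0 < n := by omega
    exact_mod_cast this
  have h1 : (2 * n : ℝ) ^ n = ∏ _b : Fin n, (2 * n : ℝ) := by
    rw [Finset.prod_const, Finset.card_univ, Fintype.card_fin]
  rw [h1, ← Finset.prod_mul_distrib]
  unfold UU
  refine Finset.prod_le_prod (fun b _ => by positivity) fun b _ => ?_
  have h2 : (1 : ℝ) ≤ (d (e.symm b).1 : ℝ) := by exact_mod_cast hd _
  have h3 : (2 * n : ℝ) * ((d (e.symm b).1 : ℝ) / n) = 2 * (d (e.symm b).1 : ℝ) := by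
    field_simp
  rw [h3]
  linarith

/-- The sum of the factors over all pairs. -/
theorem sum_le_B [Fintype β] {ι : Type} [Fintype ι] (sb : ι → β) (dg : ι → ℕ) (Db : β → ℕ)
    (s₀ : ℕ) (hs : 1 ≤ s₀) (hDb : ∀ s, Dg sb dg s ≤ Db s) :
    ∑ i, (dg i : ℝ) / (((s₀ * Db (sb i) : ℕ) : ℝ) + 1) ≤ (Fintype.card β : ℝ) / s₀ := by
  have hs0 : (0 : ℝ) < s₀ := by
    have : 0 < s₀ := by omega
    exact_mod_cast this
  rw [← Finset.sum_fiberwise Finset.univ sb]
  calc ∑ s : β, ∑ i ∈ Finset.univ.filter (fun i => sb i = s),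
        (dg i : ℝ) / (((s₀ * Db (sb i) : ℕ) : ℝ) + 1)
      ≤ ∑ _s : β, (1 : ℝ) / s₀ := Finset.sum_le_sum fun s _ => ?_
    _ = (Fintype.card β : ℝ) / s₀ := by
        rw [Finset.sum_const, Finset.card_univ, nsmul_eq_mul]
        ring
  have h1 : ∑ i ∈ Finset.univ.filter (fun i => sb i = s),
      (dg i : ℝ) / (((s₀ * Db (sb i) : ℕ) : ℝ) + 1) =
      (Dg sb dg s : ℝ) / (((s₀ * Db s : ℕ) : ℝ) + 1) := by
    unfold Dg
    rw [Nat.cast_sum, Finset.sum_div]
    refine Finset.sum_congr rfl fun i hi => ?_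
    rw [(Finset.mem_filter.1 hi).2]
  rw [h1]
  have h2 : (Dg sb dg s : ℝ) ≤ (Db s : ℝ) := by exact_mod_cast hDb s
  rw [div_le_div_iff₀ (by positivity) hs0]
  push_cast
  nlinarith

theorem exP_pos [Fintype β] (e : Co m ≃ Fin n) (hm : ∀ s, 1 ≤ m s) (hn : 1 ≤ n)
    (r₀ : ℕ) (α : ℝ) (hα : 0 < α) :
    ∃ r s₀ M : ℕ, 1 ≤ r ∧ r₀ ≤ r ∧ (s₀ : ℝ) ≤ α * r ∧
      ∀ {ι : Type} [Fintype ι] [DecidableEq ι] (sb : ι → β) (dg : ι → ℕ) (Db : β → ℕ),
        (∀ i, dg i = 1 ∨ (2 ≤ dg i ∧ 2 ≤ m (sb i))) → (∀ s, 1 ≤ Db s) →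
        (∀ s, Dg sb dg s ≤ Db s) →
        ∃ P : MvPolynomial (JV n r) (MvPolynomial (Cf m sb dg) ℂ), P ≠ 0 ∧
          HasMonB e (fun s => s₀ * Db s) M P ∧ PropG e (gnG m sb dg) r P := by
  classical
  have hβ : Nonempty β := ⟨(e.symm ⟨0, hn⟩).1⟩
  have hn0 : (0 : ℝ) < n := by
    have : 0 < n := by omega
    exact_mod_cast this
  obtain ⟨B, hB⟩ : ∃ B : ℝ, B = (Fintype.card β : ℝ) := ⟨_, rfl⟩
  have hB1 : 1 ≤ B := by
    have h : 1 ≤ Fintype.card β := Fintype.card_pos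
    rw [hB]
    exact_mod_cast h
  obtain ⟨r, s, M, hr1, hr0, hs1, hs, hsum⟩ :=
    exists_parametersG n hn r₀ (B ^ 2 * (2 * n : ℝ) ^ n) (by positivity) α hα
  refine ⟨r, s, M, hr1, hr0, hs, ?_⟩
  intro ι _ _ sb dg Db hT hDb1 hDb
  have hs0 : (0 : ℝ) < s := by
    have : 0 < s := by omega
    exact_mod_cast this
  refine exists_PB e hm hT hr1 (fun s' => s * Db s') M ?_
  have hd1 : ∀ s', 1 ≤ s * Db s' := fun s' => Nat.mul_pos hs1 (hDb1 s')
  obtain ⟨D, hD⟩ : ∃ D : ℝ, D = ∏ b : Fin n, (((s * Db (e.symm b).1 : ℕ) : ℝ) / n) := ⟨_, rfl⟩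
  have hD0 : 0 < D := by
    rw [hD]
    refine Finset.prod_pos fun b _ => ?_
    have : (0 : ℝ) < ((s * Db (e.symm b).1 : ℕ) : ℝ) := by
      exact_mod_cast hd1 _
    positivity
  have hlow := monB_ge (r := r) e hn (fun s' => s * Db s') M
  have hup := UU_le e hn (fun s' => s * Db s') hd1
  have hx := sum_le_B sb dg Db s hs1 hDb
  rw [← hB] at hx
  rw [← hD] at hlow hup
  obtain ⟨U, hU⟩ : ∃ U : ℝ, U = UU e (fun s' => s * Db s') := ⟨_, rfl⟩
  obtain ⟨x, hxx⟩ : ∃ x : ℝ, x = ∑ i, (dg i : ℝ) / (((s * Db (sb i) : ℕ) : ℝ) + 1) := ⟨_, rfl⟩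
  have hU0 : 0 ≤ U := by
    rw [hU]
    exact UU_nonneg e _
  have hx0 : 0 ≤ x := by
    rw [hxx]
    exact Finset.sum_nonneg fun i _ => by positivity
  rw [← hxx] at hx ⊢
  rw [← hU] at hup ⊢
  refine lt_of_lt_of_le ?_ hlow
  have hstep : ∀ l ∈ Finset.range r,
      x * x * U * ((M + l + n * r).choose (n * r) : ℝ) +
        x * U * ((M + l + (n * r - 1)).choose (n * r - 1) : ℝ) ≤
      D * ((B ^ 2 * (2 * n : ℝ) ^ n) / s * ((M + l + (n * r - 1)).choose (n * r - 1) : ℝ) +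
          (B ^ 2 * (2 * n : ℝ) ^ n) / s ^ 2 * ((M + l + n * r).choose (n * r) : ℝ)) := by
    intro l _
    have c1 : (0 : ℝ) ≤ ((M + l + n * r).choose (n * r) : ℝ) := Nat.cast_nonneg _
    have c2 : (0 : ℝ) ≤ ((M + l + (n * r - 1)).choose (n * r - 1) : ℝ) := Nat.cast_nonneg _
    have h1 : x * x * U ≤ D * ((B ^ 2 * (2 * n : ℝ) ^ n) / s ^ 2) := by
      calc x * x * U ≤ (B / s) * (B / s) * ((2 * n : ℝ) ^ n * D) := by gcongr
        _ = D * ((B ^ 2 * (2 * n : ℝ) ^ n) / s ^ 2) := by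
          field_simp
    have h2 : x * U ≤ D * ((B ^ 2 * (2 * n : ℝ) ^ n) / s) := by
      calc x * U ≤ (B / s) * ((2 * n : ℝ) ^ n * D) := by gcongr
        _ ≤ (B ^ 2 / s) * ((2 * n : ℝ) ^ n * D) := by
          have h3 : B ≤ B ^ 2 := by nlinarith
          gcongr
        _ = D * ((B ^ 2 * (2 * n : ℝ) ^ n) / s) := by
          field_simp
    calc x * x * U * ((M + l + n * r).choose (n * r) : ℝ) +
        x * U * ((M + l + (n * r - 1)).choose (n * r - 1) : ℝ)
        ≤ D * ((B ^ 2 * (2 * n : ℝ) ^ n) / s ^ 2) * ((M + l + n * r).choose (n * r) : ℝ) +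
          D * ((B ^ 2 * (2 * n : ℝ) ^ n) / s) * ((M + l + (n * r - 1)).choose (n * r - 1) : ℝ) :=
          add_le_add (mul_le_mul_of_nonneg_right h1 c1) (mul_le_mul_of_nonneg_right h2 c2)
      _ = _ := by ring
  refine lt_of_le_of_lt (Finset.sum_le_sum hstep) ?_
  rw [← Finset.mul_sum]
  exact mul_lt_mul_of_pos_left hsum hD0

/-- Part A of `AC_P`. -/
theorem exP : ExP := by
  intro β _ _ m n e hm r₀ α hα
  rcases Nat.eq_zero_or_pos n with rfl | hn
  · have hβ : IsEmpty β := ⟨fun s => (e ⟨s, ⟨0, hm s⟩⟩).elim0⟩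
    refine ⟨max 1 r₀, 0, 0, le_max_left _ _, le_max_right _ _, ?_, ?_⟩
    · rw [Nat.cast_zero]
      positivity
    · intro ι _ _ sb dg Db _ _ _
      have hι : IsEmpty ι := ⟨fun i => hβ.false (sb i)⟩
      refine ⟨1, one_ne_zero, ?_, ?_⟩
      · intro μ hμ
        refine ⟨fun s => (hβ.false s).elim, ?_⟩
        have h1 : (1 : MvPolynomial (JV 0 (max 1 r₀)) (MvPolynomial (Cf m sb dg) ℂ)) =
          monomial 0 1 := rfl
        rw [h1] at hμ
        rw [Finset.mem_singleton.1 (support_monomial_subset hμ)]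
        simp [jd]
      · intro l _ i
        exact isEmptyElim i
  · exact exP_pos e hm hn r₀ α hα

/-- Modules A and C: `AC_P`. -/
theorem algP : Pool.Agent.H53R.AC_P := algP_of exP

end Pool.Agent.H49S
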